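import Pool.Agent.H71.CQ.Basic

/-!
# cqt_modules, row LNM: the coding structures are members
-/

set_option autoImplicit false

open Set

namespace Pool.Agent.H78.CQ

open Pool.Agent.H71.CQ

section

variable {L : Type} {N : NF L} {e : ℕ → ℕ → L} {x : ℕ} {O : ℕ → Set {k // Wp N e k}}
  {y : ℕ → ℕ} {t : ℕ → Equiv.Perm {k // Wp N e k}} {S : ℕ → Bool}

theorem perm_mem {α : Type} {P : Set α} {s : Equiv.Perm α} (hs : ∀ k, k ∉ P → s k = k) (k : α) :
    s k ∈ P ↔ k ∈ P := by
  constructor
  · intro h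
    by_contra hk
    rw [hs k hk] at h
    exact hk h
  · intro h
    by_contra hk
    have h1 := s.injective (hs _ hk)
    rw [h1] at hk
    exact hk h

theorem col_O (hL : Lnk N e x O y t) {i : ℕ} {k k' : {k // Wp N e k}} (hk : k ∈ O i)
    (hk' : k' ∈ O i) : e k' k' = e k k := by
  obtain ⟨h, hh, rfl⟩ := hL.con i k hk k' hk'
  exact hh k k

/-- the new labels are a permutation of the old ones -/
theorem lw_perm (hL : Lnk N e x O y t) (S : ℕ → Bool) (c : Fin 3) (z : ℕ) :
    ∃ σ : Equiv.Perm {k // Wp N e k}, (∀ k, Lw N e x O y t S c k z = e (σ k) z) ∧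
      ∀ k, e (σ k) (σ k) = e k k := by
  classical
  by_cases hc : c ≠ 0 ∧ Cm N e x z
  · have hτ : ∀ i, Cls N e (O i) (y i) z → ∃ τ : Equiv.Perm {k // Wp N e k},
        (∀ k, k ∉ O i → τ k = k) ∧ ∀ k ∈ O i,
          (if c = 2 ∧ S i = true then e (t i k) (y i) else e k (y i)) = e (τ k) z := by
      rintro i ⟨-, s, hs, hs'⟩
      by_cases h2 : c = 2 ∧ S i = true
      · refine ⟨(t i).trans s, fun k hk => ?_, fun k hk => ?_⟩
        · show s (t i k) = k
          rw [hL.ht i k hk, hs k hk]
        · rw [if_pos h2]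
          exact (hs' (t i k) ((perm_mem (hL.ht i) k).2 hk)).symm
      · refine ⟨s, hs, fun k hk => ?_⟩
        rw [if_neg h2]
        exact (hs' k hk).symm
    choose! τ hτ1 hτ2 using hτ
    let P : {k // Wp N e k} → Prop := fun k => ∃ i, k ∈ O i ∧ Cls N e (O i) (y i) z
    let f : {k // Wp N e k} → {k // Wp N e k} := fun k => if h : P k then τ h.choose k else k
    have fP : ∀ i k, k ∈ O i → Cls N e (O i) (y i) z → f k = τ i k := by
      intro i k hk hC
      have h : P k := ⟨i, hk, hC⟩
      have hi : h.choose = i := by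
        by_contra hne
        exact Set.disjoint_left.1 (hL.dis _ _ hne) h.choose_spec.1 hk
      show (if h : P k then τ h.choose k else k) = _
      rw [dif_pos h, hi]
    have fN : ∀ k, ¬ P k → f k = k := fun k hk => dif_neg hk
    have hbij : Function.Bijective f := by
      constructor
      · intro k k' hkk
        by_cases h : P k <;> by_cases h' : P k'
        · obtain ⟨i, hi, hC⟩ := h
          obtain ⟨j, hj, hC'⟩ := h'
          rw [fP i k hi hC, fP j k' hj hC'] at hkk
          have a1 : τ i k ∈ O i := (perm_mem (hτ1 i hC) k).2 hi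
          have a2 : τ j k' ∈ O j := (perm_mem (hτ1 j hC') k').2 hj
          have hij : i = j := by
            by_contra hne
            rw [← hkk] at a2
            exact Set.disjoint_left.1 (hL.dis _ _ hne) a1 a2
          subst hij
          exact (τ i).injective hkk
        · obtain ⟨i, hi, hC⟩ := h
          rw [fP i k hi hC, fN k' h'] at hkk
          exact absurd ⟨i, hkk ▸ (perm_mem (hτ1 i hC) k).2 hi, hC⟩ h'
        · obtain ⟨i, hi, hC⟩ := h'
          rw [fN k h, fP i k' hi hC] at hkk
          exact absurd ⟨i, hkk ▸ (perm_mem (hτ1 i hC) k').2 hi, hC⟩ h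
        · rw [fN k h, fN k' h'] at hkk
          exact hkk
      · intro k
        by_cases h : P k
        · obtain ⟨i, hi, hC⟩ := h
          refine ⟨(τ i).symm k, ?_⟩
          have a1 : (τ i).symm k ∈ O i := by
            rw [← perm_mem (hτ1 i hC), Equiv.apply_symm_apply]
            exact hi
          rw [fP i _ a1 hC, Equiv.apply_symm_apply]
        · exact ⟨k, fN k h⟩
    refine ⟨Equiv.ofBijective f hbij, fun k => ?_, fun k => ?_⟩
    · show _ = e (f k) z
      by_cases h : P k
      · obtain ⟨i, hi, hC⟩ := h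
        rw [fP i k hi hC, ← hτ2 i hC k hi]
        have h' : c ≠ 0 ∧ Cm N e x z ∧ ∃ i, k ∈ O i ∧ Cls N e (O i) (y i) z :=
          ⟨hc.1, hc.2, i, hi, hC⟩
        unfold Lw
        rw [dif_pos h']
        have hi' : h'.2.2.choose = i := by
          by_contra hne
          exact Set.disjoint_left.1 (hL.dis _ _ hne) h'.2.2.choose_spec.1 hi
        rw [hi']
      · rw [fN k h]
        unfold Lw
        rw [dif_neg fun h' => h h'.2.2]
    · show e (f k) (f k) = e k k
      by_cases h : P k
      · obtain ⟨i, hi, hC⟩ := h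
        rw [fP i k hi hC]
        exact col_O hL hi ((perm_mem (hτ1 i hC) k).2 hi)
      · rw [fN k h]
  · refine ⟨1, fun k => ?_, fun k => rfl⟩
    unfold Lw
    rw [dif_neg fun h' => hc ⟨h'.1, h'.2.1⟩]
    rfl

theorem le_ll (k k' : {k // Wp N e k}) :
    LE N e x O y t S (Sum.inl k) (Sum.inl k') = e k k' := rfl

theorem le_rr (v w : Fin 3 × {z // ¬ Wp N e z}) (h : v.1 = w.1) :
    LE N e x O y t S (Sum.inr v) (Sum.inr w) = e v.2 w.2 := if_pos h

theorem le_rr' (v w : Fin 3 × {z // ¬ Wp N e z}) (h : v.1 ≠ w.1) :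
    LE N e x O y t S (Sum.inr v) (Sum.inr w) = fr N (e v.2 v.2) (e w.2 w.2) := if_neg h

theorem fr_mem' (hF : HFre N) (he : Mem N e) {v w : ℕ} (hv : ¬ Wp N e v) (hw : ¬ Wp N e w) :
    fr N (e v v) (e w w) ∈ Fr N (e v v) (e w w) :=
  fr_mem (hF e he _ _ (srt_inf hv) (srt_inf hw))

theorem le_coh (hF : HFre N) (hU : HUni N) (hL : Lnk N e x O y t) :
    Coh N (LE N e x O y t S) := by
  have he := hL.m
  choose σ h1 h2 using fun (c : Fin 3) (z : ℕ) => lw_perm hL S c z
  have hlr : ∀ k v, LE N e x O y t S (Sum.inl k) (Sum.inr v) = e (σ v.1 v.2 k) v.2 :=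
    fun k v => h1 _ _ _
  have hrl : ∀ k v, LE N e x O y t S (Sum.inr v) (Sum.inl k) = e v.2 (σ v.1 v.2 k) := by
    intro k v
    show N.rev (Lw N e x O y t S v.1 k v.2) = _
    rw [h1, ← he.rev]
  refine ⟨?_, ?_, ?_, ?_⟩
  · rintro (k | v) (k' | w)
    · exact he.rev _ _
    · rw [hlr, hrl, ← he.rev]
    · rw [hlr, hrl, ← he.rev]
    · by_cases h : v.1 = w.1
      · rw [le_rr v w h, le_rr w v h.symm]
        exact he.rev _ _
      · rw [le_rr' v w h, le_rr' w v fun h' => h h'.symm]
        refine hU e he w.2 v.2 w.2.2 v.2.2 (fr_mem' hF he w.2.2 v.2.2) (fr_rev ?_)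
        exact fr_mem' hF he v.2.2 w.2.2
  · rintro (k | v) (k' | w)
    · exact he.src _ _
    · rw [hlr, le_ll, ← he.src, h2]
    · rw [hrl, le_rr v v rfl]
      exact he.src _ _
    · rw [le_rr v v rfl]
      by_cases h : v.1 = w.1
      · rw [le_rr v w h]
        exact he.src _ _
      · rw [le_rr' v w h]
        exact (fr_mem' hF he v.2.2 w.2.2).2.1.symm
  · rintro (k | v) (k' | w)
    · rw [le_ll, he.dia]
      constructor
      · intro h
        rw [Subtype.ext h]
      · intro h
        rw [Sum.inl.inj h]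
    · rw [hlr, he.dia]
      constructor
      · intro h
        have h3 := (σ w.1 w.2 k).2
        rw [h] at h3
        exact absurd h3 w.2.2
      · intro h
        cases h
    · rw [hrl, he.dia]
      constructor
      · intro h
        have h3 := (σ v.1 v.2 k').2
        rw [← h] at h3
        exact absurd h3 v.2.2
      · intro h
        cases h
    · by_cases h : v.1 = w.1
      · rw [le_rr v w h, he.dia]
        constructor
        · intro h3
          rw [Prod.ext h (Subtype.ext h3)]
        · intro h3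
          rw [Sum.inr.inj h3]
      · rw [le_rr' v w h]
        constructor
        · intro h3
          exact absurd h3 (fr_mem' hF he v.2.2 w.2.2).2.2.2.1
        · intro h3
          exact absurd (congrArg Prod.fst (Sum.inr.inj h3)) h
  · rintro (k | v) (k' | w)
    · exact he.U _ _
    · rw [hlr]
      exact he.U _ _
    · rw [hrl]
      exact he.U _ _
    · by_cases h : v.1 = w.1
      · rw [le_rr v w h]
        exact he.U _ _
      · rw [le_rr' v w h]
        exact rl_U (fr_mem' hF he v.2.2 w.2.2).1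

/-- local comparison -/
theorem local_cmp {V : Type} (E : V → V → L) (a : V) (x0 : ℕ) (he : Mem N e)
    (f : ℕ → V) (hf : Function.Injective f) (h1 : ∀ z, E a (f z) = e x0 z)
    (h2 : ∀ b, b ∉ Set.range f → Op N (E a b)) (h3 : e x0 x0 = E a a) :
    (∀ l, ¬ Op N l → {b | E a b = l}.encard = {z | e x0 z = l}.encard) ∧
      ∀ n, N.nu n (E a a) = ⊤ → {b | E a b ∈ N.B n}.Infinite := by
  constructor
  · intro l hl
    have h4 : {b | E a b = l} = f '' {z | e x0 z = l} := by
      ext b
      constructor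
      · intro hb
        have hb' : E a b = l := hb
        by_cases hr : b ∈ Set.range f
        · obtain ⟨z, rfl⟩ := hr
          refine ⟨z, ?_, rfl⟩
          show e x0 z = l
          rw [← h1]
          exact hb'
        · exact absurd (hb' ▸ h2 b hr) hl
      · rintro ⟨z, hz, rfl⟩
        show E a (f z) = l
        rw [h1]
        exact hz
    rw [h4, hf.injOn.encard_image]
  · intro n hn
    have h4 : {z | e x0 z ∈ N.B n}.Infinite := by
      rw [← Set.encard_eq_top_iff, he.cnt, h3]
      exact hn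
    refine (h4.image hf.injOn).mono ?_
    rintro _ ⟨z, hz, rfl⟩
    show E a (f z) ∈ N.B n
    rw [h1]
    exact hz

end

theorem pf_LNM (hGLU : T_GLU) : T_LNM := by
  classical
  intro L N hN hF hU e x O y t hL S
  have he := hL.m
  choose σ h1 h2 using fun (c : Fin 3) (z : ℕ) => lw_perm hL S c z
  have hlr : ∀ k v, LE N e x O y t S (Sum.inl k) (Sum.inr v) = e (σ v.1 v.2 k) v.2 :=
    fun k v => h1 _ _ _
  have hrl : ∀ k v, LE N e x O y t S (Sum.inr v) (Sum.inl k) = e v.2 (σ v.1 v.2 k) := by
    intro k v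
    show N.rev (Lw N e x O y t S v.1 k v.2) = _
    rw [h1, ← he.rev]
  refine hGLU L N hN _ _ (le_coh hF hU hL) ?_
  rintro (k | v)
  · let f : ℕ → LV N e := fun z => if h : Wp N e z then Sum.inl ⟨z, h⟩ else Sum.inr (0, ⟨z, h⟩)
    have f1 : ∀ z (h : Wp N e z), f z = Sum.inl ⟨z, h⟩ := fun z h => dif_pos h
    have f2 : ∀ z (h : ¬ Wp N e z), f z = Sum.inr (0, ⟨z, h⟩) := fun z h => dif_neg h
    have hf : Function.Injective f := by
      intro w w' hw
      by_cases a1 : Wp N e w <;> by_cases a2 : Wp N e w'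
      · rw [f1 w a1, f1 w' a2] at hw
        exact congrArg Subtype.val (Sum.inl.inj hw)
      · rw [f1 w a1, f2 w' a2] at hw
        cases hw
      · rw [f2 w a1, f1 w' a2] at hw
        cases hw
      · rw [f2 w a1, f2 w' a2] at hw
        exact congrArg (fun v : Fin 3 × {z // ¬ Wp N e z} => (v.2 : ℕ)) (Sum.inr.inj hw)
    have hE : ∀ z, LE N e x O y t S (Sum.inl k) (f z) = e k z := by
      intro z
      by_cases a1 : Wp N e z
      · rw [f1 z a1]
        rfl
      · rw [f2 z a1]
        show Lw N e x O y t S 0 k z = e k z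
        unfold Lw
        rw [dif_neg fun h => h.1 rfl]
    have hO : ∀ b, b ∉ Set.range f → Op N (LE N e x O y t S (Sum.inl k) b) := by
      rintro (k' | w) hb
      · exact absurd ⟨k'.1, f1 k'.1 k'.2⟩ hb
      · rw [hlr]
        exact op_of_wp (σ w.1 w.2 k).2 w.2.2
    obtain ⟨c1, c2⟩ := local_cmp (N := N) (e := e) _ (Sum.inl k) k he f hf hE hO rfl
    exact ⟨ℕ, e, k, he, rfl, c1, c2⟩
  · let f : ℕ → LV N e := fun z => if h : Wp N e z then Sum.inl ((σ v.1 v.2).symm ⟨z, h⟩) else
      Sum.inr (v.1, ⟨z, h⟩)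
    have f1 : ∀ z (h : Wp N e z), f z = Sum.inl ((σ v.1 v.2).symm ⟨z, h⟩) := fun z h => dif_pos h
    have f2 : ∀ z (h : ¬ Wp N e z), f z = Sum.inr (v.1, ⟨z, h⟩) := fun z h => dif_neg h
    have hf : Function.Injective f := by
      intro w w' hw
      by_cases a1 : Wp N e w <;> by_cases a2 : Wp N e w'
      · rw [f1 w a1, f1 w' a2] at hw
        exact congrArg Subtype.val ((σ v.1 v.2).symm.injective (Sum.inl.inj hw))
      · rw [f1 w a1, f2 w' a2] at hw
        cases hw
      · rw [f2 w a1, f1 w' a2] at hw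
        cases hw
      · rw [f2 w a1, f2 w' a2] at hw
        exact congrArg (fun v : Fin 3 × {z // ¬ Wp N e z} => (v.2 : ℕ)) (Sum.inr.inj hw)
    have hE : ∀ z, LE N e x O y t S (Sum.inr v) (f z) = e v.2 z := by
      intro z
      by_cases a1 : Wp N e z
      · rw [f1 z a1, hrl, Equiv.apply_symm_apply]
      · rw [f2 z a1]
        exact le_rr v (v.1, ⟨z, a1⟩) rfl
    have hO : ∀ b, b ∉ Set.range f → Op N (LE N e x O y t S (Sum.inr v) b) := by
      rintro (k' | w) hb
      · refine absurd ⟨(σ v.1 v.2 k').1, ?_⟩ hb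
        rw [f1 _ (σ v.1 v.2 k').2]
        show Sum.inl ((σ v.1 v.2).symm (σ v.1 v.2 k')) = _
        rw [Equiv.symm_apply_apply]
      · by_cases h : v.1 = w.1
        · refine absurd ⟨w.2.1, ?_⟩ hb
          rw [f2 _ w.2.2, h]
        · rw [le_rr' v w h]
          exact (fr_mem' hF he v.2.2 w.2.2).2.2.2.2.1
    have hv : e v.2 v.2 = LE N e x O y t S (Sum.inr v) (Sum.inr v) := (le_rr v v rfl).symm
    obtain ⟨c1, c2⟩ := local_cmp (N := N) (e := e) _ (Sum.inr v) v.2 he f hf hE hO hv
    exact ⟨ℕ, e, v.2, he, hv, c1, c2⟩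

end Pool.Agent.H78.CQ
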